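import Pool.Agent.N783.PF.Lat

/-!
# The ring of integers is `𝓞 F [θ]` when the discriminant is squarefree (part INT of project PF)

Port of `Pool/Agent/N833/PQ/Int.lean` (helper833, helper769) from `ℤ` to `𝓞 F` (helper31).
-/

set_option autoImplicit false
set_option linter.all false

open Polynomial IsDedekindDomain Matrix NumberField
open scoped Classical

namespace Pool.Agent.N31.PF

open Pool.Agent.N783.PF

section sqf

variable {F : Type} [Field F] [NumberField F]

/-- An element of `F` whose square times a squarefree integer is integral is an integer. -/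
theorem sqf_int {D : 𝓞 F} (hD : ∀ 𝔭 : Ideal (𝓞 F), 𝔭.IsPrime → 𝔭 ≠ ⊥ → D ∉ 𝔭 ^ 2) {t : F}
    (h : IsIntegral ℤ (t ^ 2 * (D : F))) : ∃ c : 𝓞 F, (c : F) = t := by
  have hv : ∀ v : HeightOneSpectrum (𝓞 F), v.valuation F t ≤ 1 := by
    intro v
    by_contra hlt
    rw [not_le] at hlt
    -- integrality
    have h1 : v.valuation F (t ^ 2 * (D : F)) ≤ 1 :=
      v.valuation_le_one (K := F) (⟨t ^ 2 * (D : F), h⟩ : 𝓞 F)
    -- squarefreeness
    have h2 : ¬ v.valuation F (D : F) ≤ WithZero.exp (-(2 : ℕ) : ℤ) := by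
      intro h3
      apply hD v.asIdeal v.isPrime v.ne_bot
      have h4 : v.intValuation D ≤ WithZero.exp (-(2 : ℕ) : ℤ) := by
        rwa [HeightOneSpectrum.valuation_of_algebraMap] at h3
      exact (v.intValuation_le_pow_iff_mem D 2).mp h4
    have hD0 : v.valuation F (D : F) ≠ 0 := by
      intro h0
      rw [h0] at h2
      exact h2 zero_le'
    have ht0 : v.valuation F t ≠ 0 := (lt_trans zero_lt_one hlt).ne'
    rw [map_mul, map_pow] at h1
    obtain ⟨a, ha⟩ : ∃ a : ℤ, v.valuation F t = WithZero.exp a :=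
      ⟨WithZero.log (v.valuation F t), (WithZero.exp_log ht0).symm⟩
    obtain ⟨b, hb⟩ : ∃ b : ℤ, v.valuation F (D : F) = WithZero.exp b :=
      ⟨WithZero.log (v.valuation F (D : F)), (WithZero.exp_log hD0).symm⟩
    rw [ha, hb, ← WithZero.exp_nsmul, ← WithZero.exp_add, ← WithZero.exp_zero,
      WithZero.exp_le_exp] at h1
    rw [ha, ← WithZero.exp_zero, WithZero.exp_lt_exp] at hlt
    rw [hb, WithZero.exp_le_exp] at h2
    simp only [nsmul_eq_mul] at h1
    push_cast at h1 h2
    omega
  obtain ⟨c, hc⟩ := HeightOneSpectrum.mem_integers_of_valuation_le_one F t hv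
  exact ⟨c, hc⟩

end sqf

section gen

variable {g : ℕ} {F L : Type} [Field F] [NumberField F] [Field L] [NumberField L] [Algebra F L]
  {f : (𝓞 F)[X]} {θ : L}

theorem fin (h : IsGen g f θ) : FiniteDimensional F L :=
  Module.finite_of_finrank_pos (by rw [h.rank]; omega)

/-- The power basis. -/
noncomputable def pb (h : IsGen g f θ) : PowerBasis F L where
  gen := θ
  dim := 2 * g + 1
  basis := h.basis
  basis_eq_pow := h.basis_apply

theorem minp (h : IsGen g f θ) : minpoly F θ = fF f := by
  haveI := fin h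
  have h1 : aeval θ (fF f) = 0 := h.root
  have h2 := minpoly.dvd F θ h1
  have h3 : (minpoly F θ).natDegree = 2 * g + 1 := (pb h).natDegree_minpoly
  have hi : IsIntegral F θ := (pb h).isIntegral_gen
  have h4 : (fF f).natDegree = 2 * g + 1 := by
    rw [fF, h.mon.natDegree_map, h.deg]
  exact (Polynomial.eq_of_monic_of_dvd_of_natDegree_le (minpoly.monic hi) (h.mon.map _) h2
    (by rw [h3, h4])).symm

theorem dsc_map (h : IsGen g f θ) : algebraMap (𝓞 F) F (dsc g f) =
    (f.map (algebraMap (𝓞 F) F)).resultant (derivative (f.map (algebraMap (𝓞 F) F)))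
      (2 * g + 1) (2 * g) := by
  rw [derivative_map, resultant_map_map, dsc]

theorem deg_der (h : IsGen g f θ) :
    (derivative (f.map (algebraMap (𝓞 F) F))).natDegree ≤ 2 * g := by
  refine (natDegree_derivative_le _).trans ?_
  rw [h.mon.natDegree_map, h.deg]
  omega

theorem sep (h : IsGen g f θ) (hd : dsc g f ≠ 0) : (f.map (algebraMap (𝓞 F) F)).Separable := by
  set G := f.map (algebraMap (𝓞 F) F) with hG
  have hdeg : G.natDegree = 2 * g + 1 := by
    rw [hG, h.mon.natDegree_map, h.deg]
  have h1 : G.resultant (derivative G) (2 * g + 1) (2 * g) ≠ 0 := by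
    rw [hG, ← dsc_map h]
    rwa [Ne, IsFractionRing.to_map_eq_zero_iff (R := 𝓞 F)]
  have h2 : G.resultant (derivative G) ≠ 0 := by
    intro h0
    apply h1
    obtain ⟨j, hj⟩ := Nat.exists_eq_add_of_le (deg_der h)
    rw [← hG] at hj
    have h5 := resultant_add_right_deg G (derivative G) (2 * g + 1) (derivative G).natDegree j
      le_rfl
    rw [← hj, ← hdeg, h0, mul_zero] at h5
    rw [← hdeg, h5]
  have h3 := mt resultant_eq_zero_iff.2 h2
  rw [not_and, not_not] at h3
  have hG0 : G ≠ 0 := (h.mon.map _).ne_zero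
  exact h3 (Or.inl hG0)

theorem nrm (h : IsGen g f θ) (hd : dsc g f ≠ 0) (p : F[X]) (n : ℕ) (hp : p.natDegree ≤ n) :
    Algebra.norm F (aeval θ p) = (f.map (algebraMap (𝓞 F) F)).resultant p (2 * g + 1) n := by
  haveI := fin h
  set G := f.map (algebraMap (𝓞 F) F) with hG
  have hdeg : G.natDegree = 2 * g + 1 := by
    rw [hG, h.mon.natDegree_map, h.deg]
  set E := AlgebraicClosure L
  apply (algebraMap F E).injective
  rw [Algebra.norm_eq_prod_embeddings]
  have hsp : (G.map (algebraMap F E)).Splits := IsAlgClosed.splits _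
  have hm : (G.map (algebraMap F E)).Monic := (h.mon.map _).map _
  have hdeg' : (G.map (algebraMap F E)).natDegree = 2 * g + 1 := by
    rw [Monic.natDegree_map (h.mon.map _), hdeg]
  rw [← resultant_map_map, ← hdeg', resultant_eq_prod_eval _ _ _ (natDegree_map_le.trans hp) hsp,
    hm.leadingCoeff, one_pow, one_mul]
  have hmp : minpoly F (pb h).gen = G := minp h
  have hnd : ((minpoly F (pb h).gen).aroots E).Nodup := by
    rw [hmp]
    exact nodup_roots (sep h hd).map
  have key : ∏ σ : L →ₐ[F] E, σ (aeval θ p) =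
      ∏ x : {y : E // y ∈ (minpoly F (pb h).gen).aroots E}, (p.map (algebraMap F E)).eval (x : E) :=
    Fintype.prod_equiv (pb h).liftEquiv' _ _ fun σ => by
      rw [PowerBasis.liftEquiv'_apply_coe, ← aeval_algHom_apply, eval_map_algebraMap]
      rfl
  rw [key, Finset.prod_mem_multiset _ _ (fun x => (p.map (algebraMap F E)).eval x)
    (fun _ => rfl), Finset.prod_eq_multiset_prod, Multiset.toFinset_val,
    Multiset.dedup_eq_self.mpr hnd, hmp]

theorem dis (h : IsGen g f θ) (hd : dsc g f ≠ 0) : ∃ m : ℕ,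
    Algebra.discr F (fun i : Fin (2 * g + 1) => θ ^ (i : ℕ)) =
      (-1) ^ m * algebraMap (𝓞 F) F (dsc g f) := by
  haveI := fin h
  have h1 := Algebra.discr_powerBasis_eq_norm F (pb h)
  have h2 : (⇑(pb h).basis : Fin (2 * g + 1) → L) = fun i : Fin (2 * g + 1) => θ ^ (i : ℕ) :=
    funext fun i => h.basis_apply i
  have h3 : minpoly F (pb h).gen = f.map (algebraMap (𝓞 F) F) := minp h
  rw [h3] at h1
  have h4 := nrm h hd _ _ (deg_der h)
  refine ⟨Module.finrank F L * (Module.finrank F L - 1) / 2, ?_⟩
  rw [dsc_map h, ← h4, ← h2]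
  exact h1

theorem theta_int (h : IsGen g f θ) : IsIntegral ℤ θ := by
  have h1 : IsIntegral (𝓞 F) θ := by
    refine ⟨f, h.mon, ?_⟩
    have := h.root
    rw [fF, aeval_map_algebraMap] at this
    rw [← aeval_def]
    exact this
  exact isIntegral_trans (R := ℤ) (A := 𝓞 F) θ h1

theorem dsc_ne (h : SqF g f) : dsc g f ≠ 0 := by
  intro h0
  obtain ⟨M, hM⟩ := Ideal.exists_maximal (𝓞 F)
  have hM0 : M ≠ ⊥ := Ring.ne_bot_of_isMaximal_of_not_isField hM (RingOfIntegers.not_isField F)
  exact h M hM.isPrime hM0 (by rw [h0]; exact Ideal.zero_mem _)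

end gen

/-- **INT**: the ring of integers is `𝓞 F [θ]`. -/
theorem int : S_INT := by
  intro g F L _ _ _ _ _ f θ h hsq x
  haveI := fin h
  have hθ := theta_int h
  constructor
  · intro hx
    obtain ⟨c, hc⟩ := h.gen x
    have key : ∀ i₀, ∃ d : 𝓞 F, (d : F) = c i₀ := by
      intro i₀
      obtain ⟨m, hm⟩ := dis h (dsc_ne hsq)
      set P : Matrix (Fin (2 * g + 1)) (Fin (2 * g + 1)) F := (1 : Matrix _ _ F).updateCol i₀ c
        with hP
      have hdet : P.det = c i₀ := by
        rw [hP, ← cramer_apply, cramer_one]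
        rfl
      have h1 : IsIntegral ℤ (Algebra.discr F
          ((fun i : Fin (2 * g + 1) => θ ^ (i : ℕ)) ᵥ* P.map (algebraMap F L))) := by
        apply Algebra.discr_isIntegral
        intro j
        have e : ((fun i : Fin (2 * g + 1) => θ ^ (i : ℕ)) ᵥ* P.map (algebraMap F L)) j =
            if j = i₀ then x else θ ^ (j : ℕ) := by
          rw [Matrix.vecMul, dotProduct]
          simp only [Matrix.map_apply]
          split_ifs with hj
          · subst hj
            rw [hc]
            refine Finset.sum_congr rfl fun i _ => ?_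
            rw [hP, updateCol_self, mul_comm]
          · rw [Finset.sum_eq_single j]
            · rw [hP, updateCol_ne hj, one_apply_eq, map_one, mul_one]
            · intro i _ hij
              rw [hP, updateCol_ne hj, one_apply_ne hij, map_zero, mul_zero]
            · intro h0
              exact absurd (Finset.mem_univ _) h0
        rw [e]
        split_ifs
        · exact hx
        · exact hθ.pow _
      rw [Algebra.discr_of_matrix_vecMul, hdet, hm] at h1
      apply sqf_int hsq
      have h2 : IsIntegral ℤ ((-1 : F) ^ m) := (isIntegral_one.neg).pow m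
      have h3 := h2.mul h1
      have e2 : (-1 : F) ^ m * (-1 : F) ^ m = 1 := by
        rw [← mul_pow, neg_one_mul, neg_neg, one_pow]
      have e : (-1 : F) ^ m * (c i₀ ^ 2 * ((-1) ^ m * algebraMap (𝓞 F) F (dsc g f))) =
          c i₀ ^ 2 * ((dsc g f : 𝓞 F) : F) := by
        linear_combination (c i₀ ^ 2 * ((dsc g f : 𝓞 F) : F)) * e2
      rwa [e] at h3
    choose v hv using key
    refine ⟨v, ?_⟩
    rw [hc]
    refine Finset.sum_congr rfl fun i _ => ?_
    rw [← hv i]
  · rintro ⟨v, hv⟩
    rw [hv]
    refine IsIntegral.sum _ fun i _ => ?_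
    have : IsIntegral ℤ (algebraMap F L (v i : F)) := (v i).2.map (IsScalarTower.toAlgHom ℤ F L)
    exact this.mul (hθ.pow _)

end Pool.Agent.N31.PF
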